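import Pool.Agent.Q62.SP.Stm

/-!
# Project SP, job 1: elementary properties of the bump functions
-/

open MeasureTheory Set Filter Topology
open scoped ContDiff
open Pool.Agent.Q62.SP

namespace Pool.Agent.Q223.SP

lemma phi_smooth : ContDiff ℝ ∞ phi := by
  unfold phi
  exact (Real.smoothTransition.contDiff.comp (contDiff_const.sub contDiff_id)).mul
    (Real.smoothTransition.contDiff.comp (contDiff_const.add contDiff_id))

lemma phi_cont : Continuous phi := phi_smooth.continuous

lemma phi_nonneg (y : ℝ) : 0 ≤ phi y :=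
  mul_nonneg (Real.smoothTransition.nonneg _) (Real.smoothTransition.nonneg _)

lemma phi_le_one (y : ℝ) : phi y ≤ 1 :=
  mul_le_one₀ (Real.smoothTransition.le_one _) (Real.smoothTransition.nonneg _) (Real.smoothTransition.le_one _)

lemma phi_eq {y : ℝ} (hy : -1 ≤ y) : phi y = Real.smoothTransition (2 - y) := by
  unfold phi
  rw [Real.smoothTransition.one_of_one_le (x := 2 + y) (by linarith), mul_one]

lemma phi_neg (y : ℝ) : phi (-y) = phi y := by
  unfold phi
  rw [sub_neg_eq_add, ← sub_eq_add_neg, mul_comm]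

lemma phi_abs (y : ℝ) : phi |y| = phi y := by
  rcases abs_choice y with h | h
  · rw [h]
  · rw [h, phi_neg]

lemma phi_one {y : ℝ} (hy : |y| ≤ 1) : phi y = 1 := by
  rw [← phi_abs, phi_eq (by linarith [abs_nonneg y]), Real.smoothTransition.one_of_one_le (by linarith)]

lemma phi_zero {y : ℝ} (hy : 2 ≤ |y|) : phi y = 0 := by
  rw [← phi_abs, phi_eq (by linarith [abs_nonneg y]), Real.smoothTransition.zero_of_nonpos (by linarith)]

lemma phi_anti {x y : ℝ} (hx : 0 ≤ x) (hxy : x ≤ y) : phi y ≤ phi x := by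
  rw [phi_eq (by linarith), phi_eq (by linarith)]
  exact Real.smoothTransition.monotone (by linarith)

/-! ## `qq` -/

lemma qq_smooth : ContDiff ℝ ∞ qq := by
  unfold qq
  exact phi_smooth.sub (((phi_smooth.comp (contDiff_id.sub contDiff_const)).add
    (phi_smooth.comp (contDiff_id.add contDiff_const))).div_const 2)

lemma qq_cont : Continuous qq := qq_smooth.continuous

lemma qq_neg (s : ℝ) : qq (-s) = qq s := by
  unfold qq
  have h1 : -s - 4 = -(s + 4) := by ring
  have h2 : -s + 4 = -(s - 4) := by ring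
  rw [h1, h2, phi_neg, phi_neg, phi_neg, add_comm]

lemma qq_mid {s : ℝ} (h : |s| ≤ 2) : qq s = phi s := by
  have h' := abs_le.1 h
  unfold qq
  rw [phi_zero (y := s - 4) (by rw [le_abs]; right; linarith), phi_zero (y := s + 4) (by rw [le_abs]; left; linarith)]
  ring

lemma qq_right {s : ℝ} (h : 2 ≤ s) : qq s = -(phi (s - 4) / 2) := by
  unfold qq
  rw [phi_zero (y := s) (by rw [le_abs]; left; linarith), phi_zero (y := s + 4) (by rw [le_abs]; left; linarith)]
  ring

lemma qq_abs (s : ℝ) : qq |s| = qq s := by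
  rcases abs_choice s with h | h
  · rw [h]
  · rw [h, qq_neg]

lemma qq_bounds (s : ℝ) : -(1 / 2) ≤ qq s ∧ qq s ≤ 1 := by
  rw [← qq_abs]
  rcases le_total |s| 2 with h | h
  · rw [qq_mid (by rwa [abs_abs])]
    exact ⟨by linarith [phi_nonneg |s|], phi_le_one _⟩
  · rw [qq_right h]
    exact ⟨by linarith [phi_le_one (|s| - 4)], by linarith [phi_nonneg (|s| - 4)]⟩

lemma qq_one {s : ℝ} (h : |s| ≤ 1) : qq s = 1 := by
  rw [qq_mid (by linarith), phi_one h]

lemma qq_zero {s : ℝ} (h : 6 ≤ |s|) : qq s = 0 := by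
  rw [← qq_abs, qq_right (by linarith), phi_zero (by rw [le_abs]; left; linarith)]
  simp

/-! ## `PP` -/

lemma pp_deriv (s : ℝ) : HasDerivAt PP (qq s) s :=
  intervalIntegral.integral_hasDerivAt_right (qq_cont.intervalIntegrable _ _)
    qq_cont.aestronglyMeasurable.stronglyMeasurableAtFilter qq_cont.continuousAt

lemma pp_smooth : ContDiff ℝ ∞ PP := by
  rw [contDiff_infty_iff_deriv]
  refine ⟨fun s => (pp_deriv s).differentiableAt, ?_⟩
  have : deriv PP = qq := funext fun s => (pp_deriv s).deriv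
  rw [this]
  exact qq_smooth

lemma pp_zero : PP 0 = 0 := by
  unfold PP
  simp

lemma pp_neg (s : ℝ) : PP (-s) = -PP s := by
  unfold PP
  have h := intervalIntegral.integral_comp_neg (a := 0) (b := s) qq
  rw [neg_zero] at h
  rw [intervalIntegral.integral_symm, ← h]
  simp only [qq_neg]

lemma pp_id {s : ℝ} (h : |s| ≤ 1) : PP s = s := by
  have h' := abs_le.1 h
  unfold PP
  have : ∫ y in (0 : ℝ)..s, qq y = ∫ _ in (0 : ℝ)..s, (1 : ℝ) := by
    refine intervalIntegral.integral_congr fun y hy => ?_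
    refine qq_one (abs_le.2 ?_)
    rcases le_total 0 s with h0 | h0
    · rw [uIcc_of_le h0] at hy
      exact ⟨by linarith [hy.1], by linarith [hy.2]⟩
    · rw [uIcc_of_ge h0] at hy
      exact ⟨by linarith [hy.1], by linarith [hy.2]⟩
  rw [this]
  simp

lemma int_phi_even : ∫ y in (-2 : ℝ)..2, phi y = 2 * ∫ y in (0 : ℝ)..2, phi y := by
  have h := intervalIntegral.integral_comp_neg (a := 0) (b := 2) phi
  rw [neg_zero] at h
  simp only [phi_neg] at h
  rw [← intervalIntegral.integral_add_adjacent_intervals (a := -2) (b := 0) (c := 2)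
    (phi_cont.intervalIntegrable _ _) (phi_cont.intervalIntegrable _ _), ← h]
  ring

lemma pp_six : PP 6 = 0 := by
  unfold PP
  rw [← intervalIntegral.integral_add_adjacent_intervals (a := 0) (b := 2) (c := 6)
    (qq_cont.intervalIntegrable _ _) (qq_cont.intervalIntegrable _ _)]
  have h1 : ∫ y in (0 : ℝ)..2, qq y = ∫ y in (0 : ℝ)..2, phi y := by
    refine intervalIntegral.integral_congr fun y hy => ?_
    rw [uIcc_of_le (by norm_num)] at hy
    exact qq_mid (abs_le.2 ⟨by linarith [hy.1], hy.2⟩)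
  have h2 : ∫ y in (2 : ℝ)..6, qq y = ∫ y in (2 : ℝ)..6, -(phi (y - 4) / 2) := by
    refine intervalIntegral.integral_congr fun y hy => ?_
    rw [uIcc_of_le (by norm_num)] at hy
    exact qq_right hy.1
  have h3 : ∫ y in (2 : ℝ)..6, phi (y - 4) = ∫ y in (-2 : ℝ)..2, phi y := by
    rw [intervalIntegral.integral_comp_sub_right]
    norm_num
  rw [h1, h2, intervalIntegral.integral_neg, intervalIntegral.integral_div, h3, int_phi_even]
  ring

lemma pp_split (s t : ℝ) : PP t = PP s + ∫ y in s..t, qq y := by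
  unfold PP
  rw [intervalIntegral.integral_add_adjacent_intervals (qq_cont.intervalIntegrable _ _)
    (qq_cont.intervalIntegrable _ _)]

lemma pp_far {s : ℝ} (h : 6 ≤ s) : PP s = 0 := by
  rw [pp_split 6 s, pp_six, zero_add]
  have : ∫ y in (6 : ℝ)..s, qq y = ∫ _ in (6 : ℝ)..s, (0 : ℝ) := by
    refine intervalIntegral.integral_congr fun y hy => ?_
    rw [uIcc_of_le h] at hy
    exact qq_zero (by rw [le_abs]; left; exact hy.1)
  rw [this]
  simp

lemma pp_nonneg {s : ℝ} (h : 0 ≤ s) : 0 ≤ PP s := by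
  rcases le_total s 2 with h2 | h2
  · unfold PP
    refine intervalIntegral.integral_nonneg h fun y hy => ?_
    rw [qq_mid (abs_le.2 ⟨by linarith [hy.1], by linarith [hy.2]⟩)]
    exact phi_nonneg y
  · rcases le_total s 6 with h6 | h6
    · have h1 := pp_split s 6
      rw [pp_six] at h1
      have h3 : ∫ y in s..6, qq y ≤ 0 := by
        have : 0 ≤ ∫ y in s..6, -qq y := by
          refine intervalIntegral.integral_nonneg h6 fun y hy => ?_
          rw [qq_right (by linarith [hy.1])]
          linarith [phi_nonneg (y - 4)]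
        rw [intervalIntegral.integral_neg] at this
        linarith
      linarith
    · rw [pp_far h6]

lemma pp_le {s : ℝ} (h : 0 ≤ s) : PP s ≤ s := by
  unfold PP
  calc ∫ y in (0 : ℝ)..s, qq y ≤ ∫ _ in (0 : ℝ)..s, (1 : ℝ) :=
        intervalIntegral.integral_mono_on h (qq_cont.intervalIntegrable _ _) (by simp) fun y _ => (qq_bounds y).2
    _ = s := by simp

lemma pp_mul (s : ℝ) : 0 ≤ s * PP s ∧ s * PP s ≤ s ^ 2 := by
  rcases le_total 0 s with h | h
  · exact ⟨mul_nonneg h (pp_nonneg h), by nlinarith [pp_le h]⟩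
  · have h' : 0 ≤ -s := by linarith
    have h1 := pp_nonneg h'
    have h2 := pp_le h'
    rw [pp_neg] at h1 h2
    exact ⟨by nlinarith, by nlinarith⟩

lemma pp_abs (s : ℝ) : |PP s| ≤ |s| := by
  rcases le_total 0 s with h | h
  · rw [abs_of_nonneg h, abs_of_nonneg (pp_nonneg h)]
    exact pp_le h
  · have h' : 0 ≤ -s := by linarith
    have h1 := pp_nonneg h'
    have h2 := pp_le h'
    rw [pp_neg] at h1 h2
    rw [abs_of_nonpos h, abs_of_nonpos (by linarith)]
    exact h2

lemma pp_out {s : ℝ} (h : 6 ≤ |s|) : PP s = 0 := by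
  rcases le_abs.1 h with h | h
  · exact pp_far h
  · have := pp_far h
    rw [pp_neg] at this
    linarith

/-! ## `psi` and the integrals -/

lemma psi_smooth : ContDiff ℝ ∞ psi := by
  unfold psi
  exact (phi_smooth.comp (contDiff_const.mul (contDiff_id.sub contDiff_const))).sub
    (phi_smooth.comp (contDiff_const.mul (contDiff_id.sub contDiff_const)))

lemma psi_abs (y : ℝ) : |psi y| ≤ 1 := by
  unfold psi
  rw [abs_le]
  have h1 := phi_nonneg (20 * (y - 51 / 10))
  have h2 := phi_le_one (20 * (y - 51 / 10))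
  have h3 := phi_nonneg (20 * (y - 11 / 10))
  have h4 := phi_le_one (20 * (y - 11 / 10))
  exact ⟨by linarith, by linarith⟩

lemma psi_supp {y : ℝ} (h : psi y ≠ 0) : 1 ≤ y ∧ y ≤ 52 / 10 := by
  by_contra hc
  apply h
  unfold psi
  rw [not_and_or, not_le, not_le] at hc
  rcases hc with hc | hc
  · rw [phi_zero (by rw [le_abs]; right; linarith), phi_zero (by rw [le_abs]; right; linarith), sub_zero]
  · rw [phi_zero (by rw [le_abs]; left; linarith), phi_zero (by rw [le_abs]; left; linarith), sub_zero]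

lemma int_pos {c : ℝ} (hc : 0 < c) : 0 < ∫ y, phi (c * y) := by
  have hcont : Continuous fun y => phi (c * y) := phi_cont.comp (continuous_const.mul continuous_id)
  have hsupp : HasCompactSupport fun y => phi (c * y) := by
    refine HasCompactSupport.of_support_subset_isCompact (isCompact_Icc (a := -(2 / c)) (b := 2 / c)) ?_
    intro y hy
    by_contra hn
    apply hy
    refine phi_zero ?_
    rw [abs_mul, abs_of_pos hc]
    have : 2 / c ≤ |y| := by
      by_contra h3
      rw [not_le] at h3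
      exact hn ⟨by linarith [(abs_lt.1 h3).1], (abs_lt.1 h3).2.le⟩
    rwa [div_le_iff₀ hc, mul_comm] at this
  refine hcont.integral_pos_of_hasCompactSupport_nonneg_nonzero hsupp (fun y => phi_nonneg _) (x := 0) ?_
  rw [mul_zero, phi_one (by simp)]
  exact one_ne_zero

/-- **Job 1** -/
theorem t_PHI : S_PHI :=
  ⟨⟨phi_smooth, fun y => ⟨phi_nonneg y, phi_le_one y⟩, fun _ h => phi_one h, fun _ h => phi_zero h,
      phi_neg, fun _ _ h h' => phi_anti h h'⟩,
    ⟨qq_smooth, qq_bounds, fun _ h => qq_one h, fun _ h => qq_zero h, qq_neg⟩,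
    ⟨pp_smooth, pp_deriv, fun _ h => pp_id h, fun _ h => pp_out h, pp_neg, pp_mul, pp_abs⟩,
    ⟨psi_smooth, psi_abs, fun _ h => psi_supp h, int_pos (by norm_num), int_pos (by norm_num)⟩⟩

end Pool.Agent.Q223.SP
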